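import Pool.Agent.N922.PY.Stm
import Pool.Agent.N316.PQ.Fam
import Pool.Agent.N783.PQ.FinalA

/-!
# Part FAM4 of project PY (adapted from helper316's `Pool/Agent/N316/PQ/Fam.lean`)
-/

set_option autoImplicit false
set_option linter.all false

open Polynomial
open scoped Classical

namespace Pool.Agent.N922.PY

open Pool.Agent.N783.PQ hiding pol pol_monic pol_natDegree
open Pool.Agent.N316.PQ
open Pool.Agent.N352.PJ (dd pol dis Dy D2)

theorem fam_core (h1 : S_BX) (h2 : S_SML) (h3 : S_WK) (h4 : S_STR) (h6 : S_DSC) :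
    ∀ g : ℕ, 1 ≤ g → ∃ M : ℕ, ∀ (W : ℕ) (f₁ : ℤ[X]), GoodF g W f₁ →
      (∀ p : ℕ, p.Prime → p ≤ M → p ∣ W) →
      ∃ c : ℝ, 0 < c ∧ ∀ (S : Finset ℕ) (h : ℕ → ℤ[X]), GoodS g W S h → ∃ B₀ : ℕ, ∀ B ≥ B₀,
        c * (B : ℝ) ^ dd g ≤ ((∏ q ∈ S, q ^ (2 * g) : ℕ) : ℝ) *
          ({f : ℤ[X] | Fam g B W f₁ S h f}.ncard : ℝ) := by
  intro g hg
  obtain ⟨M, hM⟩ := h2 g hg
  refine ⟨max M (2 * g + 1), fun W f₁ hf₁ hW => ?_⟩
  have hW0 : 0 < W := hf₁.pos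
  refine ⟨1 / (2 * (W : ℝ) ^ (2 * g)), by positivity, fun S h hS => ?_⟩
  obtain ⟨Q, hQ⟩ : ∃ Q : ℕ, Q = ∏ q ∈ S, q := ⟨_, rfl⟩
  have hQ0 : 0 < Q := by
    rw [hQ]
    exact Finset.prod_pos fun q hq => (hS q hq).1.pos
  have hWQ : 0 < W * Q := Nat.mul_pos hW0 hQ0
  -- residues
  have hcrt : ∀ j : Fin (2 * g), ∃ x : ℤ, (W : ℤ) ∣ x - f₁.coeff j ∧
      ∀ q ∈ S, (q : ℤ) ∣ x - (X * h q).coeff j := fun j =>
    crt W S (fun q hq => ⟨(hS q hq).1, fun hd =>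
      absurd (Nat.le_of_dvd hW0 hd) (by have := (hS q hq).2.1; omega)⟩) _ _
  choose A hA1 hA2 using hcrt
  obtain ⟨B₁, hB₁⟩ := h4 g hg (1 / (4 * ((W * Q : ℕ) : ℝ) ^ (2 * g))) (by positivity)
  refine ⟨max B₁ (W * Q), fun B hB => ?_⟩
  have hBB1 : B₁ ≤ B := (le_max_left _ _).trans hB
  have hBWQ : W * Q ≤ B := (le_max_right _ _).trans hB
  have hB1 : 1 ≤ B := hWQ.trans_le hBWQ
  obtain ⟨hfin, hcard, -⟩ := h1 g B (W * Q) A hWQ hBWQ
  obtain ⟨hfin0, -, -⟩ := h1 g B 1 (fun _ => 0) one_pos hB1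
  have hBz : (Bz g B).Finite := by
    refine hfin0.subset ?_
    intro a ha
    exact ⟨ha, fun j => by simp⟩
  have hsml := hM B (W * Q) A hWQ hBWQ
  have hstr := hB₁ B hBB1
  set U := Bx g B (W * Q) A with hU
  set U1 := {a ∈ U | ∃ P : ℕ, P.Prime ∧ M < P ∧ P ^ 2 < B ∧ ¬ P ∣ (W * Q) ∧
    (P : ℤ) ^ 2 ∣ dis a} with hU1
  set U2 := {a ∈ Bz g B | ∃ P : ℕ, P.Prime ∧ B ≤ P ^ 2 ∧ (P : ℤ) ∣ dis a ∧ (P : ℤ) ∣ D2 a}
    with hU2
  have hU1f : U1.Finite := hfin.subset (Set.sep_subset _ _)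
  have hU2f : U2.Finite := hBz.subset (Set.sep_subset _ _)
  -- the good ones are in the family
  have key : pol '' (U \ (U1 ∪ U2)) ⊆ {f : ℤ[X] | Fam g B W f₁ S h f} := by
    rintro _ ⟨a, ⟨haU, ha⟩, rfl⟩
    have haB : ∀ j, |a j| ≤ (B : ℤ) ^ (2 * g + 1 - (j : ℕ)) := haU.1
    have haR : ∀ j, ((W * Q : ℕ) : ℤ) ∣ a j - A j := haU.2
    have hone : Cg W (pol a) f₁ := by
      apply cg_pol a hf₁.mon hf₁.deg hf₁.tr
      intro j
      have e1 : (W : ℤ) ∣ a j - A j := dvd_trans (by push_cast; exact dvd_mul_right _ _) (haR j)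
      have e2 : a j - f₁.coeff j = (a j - A j) + (A j - f₁.coeff j) := by ring
      rw [e2]
      exact dvd_add e1 (hA1 j)
    have hcon : ∀ q ∈ S, Cg q (pol a) (X * h q) := by
      intro q hq
      obtain ⟨hq1, hq2, hq3, hq4, hq5, hq6, hq7, hq8⟩ := hS q hq
      have hd : (X * h q).natDegree = 2 * g + 1 := by
        rw [Polynomial.monic_X.natDegree_mul hq5, Polynomial.natDegree_X, hq6, add_comm]
      apply cg_pol a (Polynomial.monic_X.mul hq5) hd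
      · have e1 : 2 * g = (2 * g - 1) + 1 := by omega
        rw [e1, Polynomial.coeff_X_mul, hq7]
      · intro j
        have e0 : (q : ℤ) ∣ ((W * Q : ℕ) : ℤ) := by
          have e3 : q ∣ Q := by
            rw [hQ]
            exact Finset.dvd_prod_of_mem (fun q => q) hq
          exact_mod_cast Dvd.dvd.mul_left e3 W
        have e1 : (q : ℤ) ∣ a j - A j := dvd_trans e0 (haR j)
        have e2 : a j - (X * h q).coeff j = (a j - A j) + (A j - (X * h q).coeff j) := by ring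
        rw [e2]
        exact dvd_add e1 (hA2 j q hq)
    refine ⟨ht_pol haB, hone, hcon, fun P hP hPd => ?_⟩
    have hPd' : (P : ℤ) ^ 2 ∣ dis a := hPd
    have hPd1 : (P : ℤ) ∣ dsc g (pol a) := dvd_trans (dvd_pow_self _ two_ne_zero) hPd
    have hPW : ¬ P ∣ W := by
      intro hd
      refine h6 g P (pol a) f₁ hg hP (pol_monic a) (pol_natDegree a) ?_ (hf₁.sep P hP hd) hPd1
      intro j
      exact dvd_trans (by exact_mod_cast hd) (hone j)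
    have hPS : P ∉ S := by
      intro hd
      obtain ⟨hq1, hq2, hq3, hq4, hq5, hq6, hq7, hq8⟩ := hS P hd
      exact h6 g P (pol a) (X * h P) hg hP (pol_monic a) (pol_natDegree a) (hcon P hd)
        (sep_X_mul hg hP hq5 hq6 hq8) hPd1
    have hPQ : ¬ P ∣ W * Q := by
      rw [Nat.Prime.dvd_mul hP]
      rintro (hd | hd)
      · exact hPW hd
      · rw [hQ] at hd
        obtain ⟨q, hq, hpq⟩ := (Prime.dvd_finset_prod_iff hP.prime _).1 hd
        have e1 := (Nat.prime_dvd_prime_iff_eq hP (hS q hq).1).1 hpq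
        rw [e1] at hPS
        exact hPS hq
    have hPM : max M (2 * g + 1) < P := by
      by_contra hc
      exact hPW (hW P hP (not_lt.1 hc))
    have hPM1 : M < P := (le_max_left _ _).trans_lt hPM
    have hPg : 2 * g + 1 < P := (le_max_right _ _).trans_lt hPM
    have hBP : B ≤ P ^ 2 := by
      by_contra hc
      exact ha (Or.inl ⟨haU, P, hP, hPM1, not_le.1 hc, hPQ, hPd'⟩)
    refine ⟨hBP, h3 g P hg hP hPg a hPd' fun hD => ?_⟩
    exact ha (Or.inr ⟨haB, P, hP, hBP, hPd1, hD⟩)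
  -- finiteness of the family
  have hFf : {f : ℤ[X] | Fam g B W f₁ S h f}.Finite := by
    refine (hBz.image pol).subset ?_
    intro f hf
    refine ⟨fun j => f.coeff j, ?_, (eq_pol hf.ht).symm⟩
    intro j
    exact hf.ht.ht j (by have := j.2; omega)
  -- counting
  have c1 : (U \ (U1 ∪ U2)).ncard ≤ {f : ℤ[X] | Fam g B W f₁ S h f}.ncard := by
    rw [← Set.ncard_image_of_injective _ pol_inj]
    exact Set.ncard_le_ncard key hFf
  have c2 : U.ncard ≤ (U \ (U1 ∪ U2)).ncard + (U1.ncard + U2.ncard) := by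
    have e1 := Set.ncard_le_ncard_diff_add_ncard U (U1 ∪ U2) (hU1f.union hU2f)
    have e2 := Set.ncard_union_le U1 U2
    omega
  have c3 : (4 : ℝ) * U1.ncard ≤ U.ncard := by exact_mod_cast hsml
  have c4 : (B : ℝ) ^ dd g ≤ U.ncard * ((W * Q : ℕ) : ℝ) ^ (2 * g) := by exact_mod_cast hcard
  have hP0 : (0 : ℝ) < ((W * Q : ℕ) : ℝ) ^ (2 * g) := by positivity
  have c5 : (4 : ℝ) * U2.ncard ≤ U.ncard := by
    have e1 : (U2.ncard : ℝ) ≤ 1 / (4 * ((W * Q : ℕ) : ℝ) ^ (2 * g)) *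
        (U.ncard * ((W * Q : ℕ) : ℝ) ^ (2 * g)) :=
      hstr.trans (mul_le_mul_of_nonneg_left c4 (by positivity))
    have e2 : 1 / (4 * ((W * Q : ℕ) : ℝ) ^ (2 * g)) *
        (U.ncard * ((W * Q : ℕ) : ℝ) ^ (2 * g)) = U.ncard / 4 := by
      field_simp
    rw [e2] at e1
    linarith
  have c6 : (U.ncard : ℝ) ≤ 2 * ({f : ℤ[X] | Fam g B W f₁ S h f}.ncard : ℝ) := by
    have e1 : (U.ncard : ℝ) ≤ ((U \ (U1 ∪ U2)).ncard : ℝ) + (U1.ncard + U2.ncard) := by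
      exact_mod_cast c2
    have e2 : ((U \ (U1 ∪ U2)).ncard : ℝ) ≤ ({f : ℤ[X] | Fam g B W f₁ S h f}.ncard : ℝ) := by
      exact_mod_cast c1
    linarith
  have c7 : ((∏ q ∈ S, q ^ (2 * g) : ℕ) : ℝ) = (Q : ℝ) ^ (2 * g) := by
    rw [hQ, Finset.prod_pow]
    push_cast
    rfl
  rw [c7]
  have hW1 : (0 : ℝ) < (W : ℝ) ^ (2 * g) := by positivity
  have c8 : (B : ℝ) ^ dd g ≤ (2 * ({f : ℤ[X] | Fam g B W f₁ S h f}.ncard : ℝ)) *
      ((W * Q : ℕ) : ℝ) ^ (2 * g) := c4.trans (mul_le_mul_of_nonneg_right c6 hP0.le)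
  rw [one_div_mul_eq_div, div_le_iff₀ (by positivity)]
  refine c8.trans (le_of_eq ?_)
  push_cast
  rw [mul_pow]
  ring



theorem fam4 (h5 : S_GF4) : S_FAM4 := by
  obtain ⟨M, hM⟩ := fam_core Pool.Agent.N134.PQ.bx
    (Pool.Agent.N595.PQ.sml Pool.Agent.N134.PQ.ld Pool.Agent.N134.PQ.bx)
    Pool.Agent.N755.PQ.WK.wk Pool.Agent.N891.PQ.str Pool.Agent.N262.PQ.dscp 2 (by norm_num)
  obtain ⟨W, f₁, hf, h4, hc, hp⟩ := h5 M
  exact ⟨W, f₁, hf, h4, hc, hM W f₁ hf hp⟩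

end Pool.Agent.N922.PY
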