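import Pool.Agent.N783.PQ.Sha
import Mathlib.RingTheory.LaurentSeries
import Mathlib.NumberTheory.Padics.RingHoms

/-!
# Curves of genus two over `ℚ` with exactly one rational point: statements of the parts

Project PY (helper922), after project PQ (helper783). `f` is a monic polynomial of degree five,
congruent to `x ^ 5 + x ^ 3 + x ^ 2 + x + 1` modulo four. The group of the points of the Jacobian
over `ℚ_2` has no infinitely 2-divisible element of the form `P - ∞`.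
-/

set_option autoImplicit false
set_option linter.all false

open Polynomial
open scoped Classical

namespace Pool.Agent.N922.PY

open Pool.Agent.Y723.HJ (CR OddM HF clmap mapR CC mi bar nm cl)
open Pool.Agent.N783.PQ (pol fol Cg GoodF GoodS Fam Ht SelZero ov)
open Pool.Agent.N352.PJ (dd)

/-! ### Quadratic algebras -/

/-- The homomorphism of the rings `R[x, y] / (y ^ 2 - f)` given by a homomorphism of rings. -/
noncomputable def qmap {R S : Type} [CommRing R] [CommRing S] (φ : R →+* S) (f : R[X]) :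
    QuadraticAlgebra R[X] f 0 →+* QuadraticAlgebra S[X] (f.map φ) 0 where
  toFun z := ⟨z.re.map φ, z.im.map φ⟩
  map_zero' := by
    refine QuadraticAlgebra.ext ?_ ?_ <;> exact Polynomial.map_zero φ
  map_one' := by
    refine QuadraticAlgebra.ext ?_ ?_
    · exact Polynomial.map_one φ
    · exact Polynomial.map_zero φ
  map_add' z w := by
    refine QuadraticAlgebra.ext ?_ ?_ <;> exact Polynomial.map_add φ
  map_mul' z w := by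
    refine QuadraticAlgebra.ext ?_ ?_
    · simp only [QuadraticAlgebra.re_mul, Polynomial.map_add, Polynomial.map_mul]
    · simp only [QuadraticAlgebra.im_mul, Polynomial.map_add, Polynomial.map_mul,
        Polynomial.map_zero]

/-- The ring `ℤ_2[x, y] / (y ^ 2 - f)`. -/
abbrev AA (f : ℤ_[2][X]) : Type := QuadraticAlgebra ℤ_[2][X] f 0

/-- `f` over `ℚ_2`. -/
noncomputable abbrev fK (f : ℤ_[2][X]) : ℚ_[2][X] := f.map (algebraMap ℤ_[2] ℚ_[2])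

/-- The inclusion in the coordinate ring over `ℚ_2`. -/
noncomputable abbrev toK (f : ℤ_[2][X]) : AA f →+* CR (fK f) := qmap (algebraMap ℤ_[2] ℚ_[2]) f

/-- The reduction modulo two of a polynomial. -/
noncomputable abbrev r2 (f : ℤ_[2][X]) : (ZMod 2)[X] := f.map (PadicInt.toZMod (p := 2))

/-- The reduction modulo two. -/
noncomputable abbrev to2 (f : ℤ_[2][X]) : AA f →+* QuadraticAlgebra (ZMod 2)[X] (r2 f) 0 :=
  qmap (PadicInt.toZMod (p := 2)) f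

/-- The polynomial. -/
noncomputable def f0 : ℤ[X] := X ^ 5 + X ^ 3 + X ^ 2 + X + 1

/-- The conditions on `f`. -/
structure Good (f : ℤ_[2][X]) : Prop where
  mon : f.Monic
  deg : f.natDegree = 5
  four : ∀ j, (4 : ℤ_[2]) ∣ f.coeff j - ((f0.coeff j : ℤ) : ℤ_[2])

/-- A class with a good representative `D`: its norm is a monic polynomial `U` over `ℤ_2`, and
there is `h ∈ D ^ 2`, integral, congruent to `U` modulo two. -/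
def Nice (f : ℤ_[2][X]) [HF (fK f)] (d : ClassGroup (CR (fK f))) : Prop :=
  ∃ (D : Ideal (CR (fK f))) (U : ℤ_[2][X]) (p : AA f), D ≠ ⊥ ∧ cl D = d ∧ U.Monic ∧
    nm D = U.map (algebraMap ℤ_[2] ℚ_[2]) ∧ toK f (⟨U, 0⟩ + 2 * p) ∈ D ^ 2

/-! ### The parts at the prime two -/

/-- Part REG. No point of degree two reduces to the singular points `x ^ 2 + x + 1 = 0`. -/
def S_REG : Prop := ∀ (f u : ℤ_[2][X]) (w : ℚ_[2][X]), Good f → u.Monic → u.natDegree = 2 →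
  r2 u = X ^ 2 + X + 1 → ¬ u.map (algebraMap ℤ_[2] ℚ_[2]) ∣ fK f - w ^ 2

/-- Part PT. Divisors of degree at most two which reduce to a multiple of a nonsingular point. -/
def S_PT : Prop := ∀ (f : ℤ_[2][X]) [HF (fK f)], Good f → ∀ (u : ℤ_[2][X]) (w : ℚ_[2][X])
  (c : ZMod 2), u.Monic → u.natDegree ≤ 2 → r2 u = (X - C c) ^ u.natDegree →
  u.map (algebraMap ℤ_[2] ℚ_[2]) ∣ fK f - w ^ 2 →
  Nice f (cl (mi (fK f) (u.map (algebraMap ℤ_[2] ℚ_[2])) w))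

/-- Part INF. Divisors of degree at most two near infinity. -/
def S_INF : Prop := ∀ (f : ℤ_[2][X]) [HF (fK f)], Good f → ∀ (v : ℤ_[2][X]) (c : ℚ_[2])
  (w : ℚ_[2][X]), r2 v = 1 → v.natDegree ≤ 2 →
  (C c * v.map (algebraMap ℤ_[2] ℚ_[2])).Monic →
  C c * v.map (algebraMap ℤ_[2] ℚ_[2]) ∣ fK f - w ^ 2 →
  Nice f (cl (mi (fK f) (C c * v.map (algebraMap ℤ_[2] ℚ_[2])) w))

/-- Part INFA. The construction of a good representative near infinity, from `H`. -/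
def S_INFA : Prop := ∀ (f : ℤ_[2][X]) [HF (fK f)], Good f → ∀ (v : ℤ_[2][X]) (c : ℚ_[2])
  (w : ℚ_[2][X]) (m : ℕ) (q : AA f), r2 v = 1 →
  (C c * v.map (algebraMap ℤ_[2] ℚ_[2])).Monic →
  C c * v.map (algebraMap ℤ_[2] ℚ_[2]) ∣ fK f - w ^ 2 →
  (⟨X ^ m, 0⟩ + 2 * q : AA f).norm.natDegree = 2 * m + v.natDegree →
  toK f (⟨X ^ m, 0⟩ + 2 * q) ∈ mi (fK f) (C c * v.map (algebraMap ℤ_[2] ℚ_[2])) (-w) →
  Nice f (cl (mi (fK f) (C c * v.map (algebraMap ℤ_[2] ℚ_[2])) w))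

/-- Part INFB. Existence of `H`. -/
def S_INFB : Prop := ∀ f : ℤ_[2][X], Good f → ∀ (v : ℤ_[2][X]) (c : ℚ_[2])
  (w : ℚ_[2][X]), r2 v = 1 → v.natDegree ≤ 2 →
  (C c * v.map (algebraMap ℤ_[2] ℚ_[2])).Monic →
  C c * v.map (algebraMap ℤ_[2] ℚ_[2]) ∣ fK f - w ^ 2 →
  ∃ (m : ℕ) (q : AA f), (⟨X ^ m, 0⟩ + 2 * q : AA f).norm.natDegree = 2 * m + v.natDegree ∧
    toK f (⟨X ^ m, 0⟩ + 2 * q) ∈ mi (fK f) (C c * v.map (algebraMap ℤ_[2] ℚ_[2])) (-w)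

/-- Part NML. Products of nice classes. -/
def S_NML : Prop := ∀ (f : ℤ_[2][X]) [HF (fK f)] (d d' : ClassGroup (CR (fK f))),
  Nice f d → Nice f d' → Nice f (d * d')

/-- Part QUA. Quadratic polynomials over `ℚ_2`. -/
def S_QUA : Prop := ∀ u : ℚ_[2][X], u.Monic → u.natDegree ≤ 2 →
  (∃ u' : ℤ_[2][X], u'.Monic ∧ u = u'.map (algebraMap ℤ_[2] ℚ_[2]) ∧
    ((∃ c : ZMod 2, r2 u' = (X - C c) ^ u'.natDegree) ∨
      (u'.natDegree = 2 ∧ r2 u' = X ^ 2 + X + 1))) ∨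
  (∃ (v : ℤ_[2][X]) (c : ℚ_[2]), r2 v = 1 ∧ v.natDegree ≤ 2 ∧
    u = C c * v.map (algebraMap ℤ_[2] ℚ_[2])) ∨
  ∃ a b : ℚ_[2], u = (X - C a) * (X - C b)

/-- Part NIC. All classes are nice. -/
def S_NIC : Prop := ∀ (f : ℤ_[2][X]) [HF (fK f)], Good f → ∀ d : ClassGroup (CR (fK f)), Nice f d

/-- Part GAU. Gauss' lemma. -/
def S_GAU : Prop := ∀ f : ℤ_[2][X], f.Monic → f.natDegree = 5 →
  (∀ z w : QuadraticAlgebra (ZMod 2)[X] (r2 f) 0, z * w = 0 → z = 0 ∨ w = 0) ∧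
  (∀ z : CR (fK f), z ≠ 0 → ∃ (c : ℚ_[2]) (z' : AA f), c ≠ 0 ∧ to2 f z' ≠ 0 ∧
    toK f z' = CC (fK f) (C c) * z) ∧
  ∀ (F t : AA f) (h : CR (fK f)), to2 f F ≠ 0 → toK f F * h = toK f t → ∃ h' : AA f, toK f h' = h

/-- The expansion at infinity: `x = s ^ (-2) α`, `y = s ^ (-5) β`. -/
structure IsPar (f : ℤ_[2][X]) (ι : AA f →+* LaurentSeries ℤ_[2]) : Prop where
  x : ∃ α : PowerSeries ℤ_[2], PowerSeries.constantCoeff α = 1 ∧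
    ι ⟨X, 0⟩ = HahnSeries.single (-2) 1 * HahnSeries.ofPowerSeries ℤ ℤ_[2] α
  y : ∃ β : PowerSeries ℤ_[2], PowerSeries.constantCoeff β = 1 ∧
    ι ⟨0, 1⟩ = HahnSeries.single (-5) 1 * HahnSeries.ofPowerSeries ℤ ℤ_[2] β
  c : ∀ r : ℤ_[2], ι ⟨C r, 0⟩ = HahnSeries.C r

/-- Part PAR. The expansion at infinity exists. -/
def S_PAR : Prop := ∀ f : ℤ_[2][X], f.Monic → f.natDegree = 5 →
  ∃ ι : AA f →+* LaurentSeries ℤ_[2], IsPar f ι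

/-- Part ORD. Orders at infinity. -/
def S_ORD : Prop := ∀ (f : ℤ_[2][X]) (ι : AA f →+* LaurentSeries ℤ_[2]), f.Monic →
  f.natDegree = 5 → IsPar f ι →
  (∀ a : ℤ_[2][X], (ι ⟨a, 0⟩).coeff (-(2 * (a.natDegree : ℤ))) = a.leadingCoeff ∧
    ∀ n : ℤ, n < -(2 * (a.natDegree : ℤ)) → (ι ⟨a, 0⟩).coeff n = 0) ∧
  (∀ b : ℤ_[2][X], (ι ⟨0, b⟩).coeff (-(2 * (b.natDegree : ℤ) + 5)) = b.leadingCoeff ∧
    ∀ n : ℤ, n < -(2 * (b.natDegree : ℤ) + 5) → (ι ⟨0, b⟩).coeff n = 0) ∧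
  (∀ (i : ℕ) (h : AA f), (∀ n : ℤ, n < 0 → (2 : ℤ_[2]) ^ i ∣ (ι h).coeff n) →
    ∃ (r : ℤ_[2]) (h' : AA f), h = ⟨C r, 0⟩ + 2 ^ i * h') ∧
  ∀ (h : AA f) (c : ℤ_[2]), IsUnit c →
    ¬ ∀ n : ℤ, n < 0 → (2 : ℤ_[2]) ∣ (ι h).coeff n + if n = -1 then c else 0

/-- Part FINA. The shape of `F`. -/
def S_FINA : Prop := ∀ f : ℤ_[2][X], f.Monic → f.natDegree = 5 →
  ∀ (U : ℤ_[2][X]) (j : ℕ) (z γ ε : ℤ_[2]) (F : AA f), U.Monic → 1 ≤ j →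
  IsUnit γ → IsUnit ε → z = 2 ^ (2 * j) * ε →
  F.norm = C γ * U ^ 2 ^ (j + 1) * (1 - C z * X) →
  2 * F.im.natDegree + 5 = 2 ^ (j + 1) * U.natDegree + 1 ∧
  2 * F.re.natDegree ≤ 2 ^ (j + 1) * U.natDegree ∧
  (∃ η : ℤ_[2], IsUnit η ∧ F.im.leadingCoeff = 2 ^ j * η) ∧
  r2 F.re = r2 U ^ 2 ^ j ∧ r2 F.im = 0

/-- Part FINB. The final contradiction, from the shape of `F`. -/
def S_FINB : Prop := ∀ (f : ℤ_[2][X]) (ι : AA f →+* LaurentSeries ℤ_[2]), f.Monic →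
  f.natDegree = 5 → IsPar f ι →
  ∀ (U : ℤ_[2][X]) (j : ℕ) (z η : ℤ_[2]) (F h p : AA f), U.Monic → 1 ≤ j → IsUnit η →
  (2 : ℤ_[2]) ^ (j + 1) ∣ z →
  (⟨U, 0⟩ + 2 * p : AA f) ^ 2 ^ j * ⟨1 - C z * X, 0⟩ = F * h →
  2 * F.im.natDegree + 5 = 2 ^ (j + 1) * U.natDegree + 1 →
  2 * F.re.natDegree ≤ 2 ^ (j + 1) * U.natDegree →
  F.im.leadingCoeff = 2 ^ j * η →
  r2 F.re = r2 U ^ 2 ^ j → r2 F.im = 0 → False

/-- Part FIN. The final contradiction: points near infinity (from FINA, FINB, PAR). -/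
def S_FIN : Prop := ∀ f : ℤ_[2][X], f.Monic → f.natDegree = 5 →
  ∀ (U : ℤ_[2][X]) (j : ℕ) (z γ ε : ℤ_[2]) (F h p : AA f), U.Monic → 1 ≤ j →
  IsUnit γ → IsUnit ε → z = 2 ^ (2 * j) * ε →
  (⟨U, 0⟩ + 2 * p : AA f) ^ 2 ^ j * ⟨1 - C z * X, 0⟩ = F * h →
  F.norm = C γ * U ^ 2 ^ (j + 1) * (1 - C z * X) → False

/-- Part FIN0. The final contradiction: integral points. -/
def S_FIN0 : Prop := ∀ f : ℤ_[2][X], f.Monic → f.natDegree = 5 →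
  ∀ (U : ℤ_[2][X]) (x γ : ℤ_[2]) (F h p : AA f), U.Monic → IsUnit γ →
  (⟨U, 0⟩ + 2 * p : AA f) * ⟨X - C x, 0⟩ = F * h →
  F.norm = C γ * U ^ 2 * (X - C x) → False

/-- Part LOC. A point is not infinitely 2-divisible. -/
def S_LOC : Prop := ∀ (f : ℤ_[2][X]) [HF (fK f)], Good f → ∀ x y : ℚ_[2],
  y ^ 2 = (fK f).eval x → ∃ k : ℕ, ∀ d : ClassGroup (CR (fK f)),
    d ^ 2 ^ k ≠ cl (mi (fK f) (X - C x) (C y))

/-! ### Global parts -/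

/-- Part INJ. Extension of the field is injective on classes. -/
def S_INJ : Prop := ∀ (F L : Type) [Field F] [Field L] (φ : F →+* L) (f : F[X]) (f' : L[X])
  [HF f] [HF f'] (h : f.map φ = f') (g : ℕ), f.natDegree = 2 * g + 1 →
  Function.Injective (clmap φ h)

/-- Part GLO. No rational points. -/
def S_GLO : Prop := ∀ a : Fin (2 * 2) → ℤ, Irreducible (fol a ℚ) → SelZero (pol a) →
  Cg 4 (pol a) f0 → ∀ x y : ℚ, y ^ 2 ≠ (fol a ℚ).eval x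

/-! ### Counting -/

/-- Part GF4. The conditions at the small primes. -/
def S_GF4 : Prop := ∀ M : ℕ, ∃ (W : ℕ) (f₁ : ℤ[X]), GoodF 2 W f₁ ∧ 4 ∣ W ∧ Cg 4 f₁ f0 ∧
  ∀ p : ℕ, p.Prime → p ≤ M → p ∣ W

/-- Part FAM4. Many polynomials in the family. -/
def S_FAM4 : Prop := ∃ (W : ℕ) (f₁ : ℤ[X]), GoodF 2 W f₁ ∧ 4 ∣ W ∧ Cg 4 f₁ f0 ∧
  ∃ c : ℝ, 0 < c ∧ ∀ (S : Finset ℕ) (h : ℕ → ℤ[X]), GoodS 2 W S h → ∃ B₀ : ℕ, ∀ B ≥ B₀,
    c * (B : ℝ) ^ dd 2 ≤ ((∏ q ∈ S, q ^ (2 * 2) : ℕ) : ℝ) *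
      ({f : ℤ[X] | Fam 2 B W f₁ S h f}.ncard : ℝ)

/-- Part MAIN4. A positive proportion. -/
def S_MAIN4 : Prop := ∃ c : ℝ, 0 < c ∧ ∃ B₀ : ℕ, ∀ B ≥ B₀,
  {f : ℤ[X] | Ht 2 B f}.Finite ∧ c * ({f : ℤ[X] | Ht 2 B f}.ncard : ℝ) ≤
    ({f : ℤ[X] | Ht 2 B f ∧ Irreducible (ov ℚ f) ∧ SelZero f ∧ Cg 4 f f0}.ncard : ℝ)

theorem inf_of (hA : S_INFA) (hB : S_INFB) : S_INF := by
  intro f _ hf v c w h1 h2 h3 h4
  obtain ⟨m, q, h5, h6⟩ := hB f hf v c w h1 h2 h3 h4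
  exact hA f hf v c w m q h1 h3 h4 h5 h6

theorem fin_of (hP : S_PAR) (hA : S_FINA) (hB : S_FINB) : S_FIN := by
  intro f h1 h2 U j z γ ε F h p hU hj hγ hε hz e1 e2
  obtain ⟨ι, hι⟩ := hP f h1 h2
  obtain ⟨a1, a2, ⟨η, hη, a3⟩, a4, a5⟩ := hA f h1 h2 U j z γ ε F hU hj hγ hε hz e2
  refine hB f ι h1 h2 hι U j z η F h p hU hj hη ?_ e1 a1 a2 a3 a4 a5
  rw [hz]
  exact Dvd.dvd.mul_right (pow_dvd_pow _ (by omega)) _

/-- The theorem: a positive proportion of the curves `y ^ 2 = x ^ 5 + a₃ x ^ 3 + a₂ x ^ 2 + a₁ x + a₀`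
has no affine rational point. -/
def S_FINAL : Prop := ∃ c : ℝ, 0 < c ∧ ∃ B₀ : ℕ, ∀ B ≥ B₀,
  {a : Fin (2 * 2) → ℤ | ∀ i, |a i| ≤ (B : ℤ) ^ (5 - (i : ℕ))}.Finite ∧
  c * ({a : Fin (2 * 2) → ℤ | ∀ i, |a i| ≤ (B : ℤ) ^ (5 - (i : ℕ))}.ncard : ℝ) ≤
    ({a : Fin (2 * 2) → ℤ | (∀ i, |a i| ≤ (B : ℤ) ^ (5 - (i : ℕ))) ∧
      Irreducible (fol a ℚ) ∧ SelZero (pol a) ∧
      ∀ x y : ℚ, y ^ 2 ≠ (fol a ℚ).eval x}.ncard : ℝ)

end Pool.Agent.N922.PY
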