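import Pool.Agent.N922.PY.Stm
import Pool.Agent.N327.PY.ORD
import Pool.Agent.N907.PY.Finb
import Pool.Agent.N349.PY.PAR
import Pool.Agent.N803.PY.FINA
import Pool.Agent.N130.PYH.Fin0
import Pool.Agent.N265.PY.GAU
import Pool.Agent.N519.PY.PT
import Pool.Agent.N280.PY.INFB
import Pool.Agent.N93.PY.QUA
import Pool.Agent.N342.PY_NIC
import Pool.Agent.N386.PY.LOC
import Pool.Agent.N488.PY.Glo
import Pool.Agent.N371.PY.GF4
import Pool.Agent.N865.PY.Main4
import Pool.Agent.N459.PY.Final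
import Pool.Agent.N783.PQ.Final
import Pool.Agent.N126.PY.INFA
import Pool.Agent.N950.PY.REG
import Pool.Agent.N922.PY.Fam4

/-!
# Assembly of project PY (helper922)
-/

set_option autoImplicit false

namespace Pool.Agent.N922.PY

theorem fin : S_FIN :=
  fin_of Pool.Agent.N349.PY.PAR.t_PAR Pool.Agent.N803.PY.fina
    (Pool.Agent.N907.PY.finb Pool.Agent.N327.PY.t_ORD)

theorem loc : S_LOC :=
  Pool.Agent.N386.PY.LOC.loc
    (Pool.Agent.N342.PY_NIC.nic Pool.Agent.N950.PY.reg Pool.Agent.N519.PY.PT.t_PT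
      (inf_of Pool.Agent.N126.PY.infa Pool.Agent.N280.PY.infb) Pool.Agent.N130.PYH.t_NML
      Pool.Agent.N93.PY.qua)
    Pool.Agent.N265.PYGAU.main fin Pool.Agent.N130.PYH.t_FIN0

theorem glo : S_GLO := Pool.Agent.N488.PY.glo loc Pool.Agent.N342.PY_NIC.inj

theorem main4 : S_MAIN4 :=
  Pool.Agent.N865.PY.main4_of Pool.Agent.N783.PQ.bad Pool.Agent.N262.PQ.exs
    (Pool.Agent.N783.PQ.tw Pool.Agent.N783.PQ.hun Pool.Agent.N783.PQ.hq)
    (fam4 Pool.Agent.N371.PY.gf4)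

theorem final : S_FINAL := Pool.Agent.N459.PY.final main4 glo

end Pool.Agent.N922.PY
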